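import Pool.Agent.R989.ZP.Fin

/-!
# MP_147277_co, Q2: there is no good permutation of `ℤ/27`

`Good n π` is the definition of the problem file: whenever `a, b, c` are not all equal and
`|[a + c - 2 b]_n| ≤ 1`, one has `|[π a + π c - 2 π b]_n| ≥ 2`, where `|[m]_n|` is the absolute value of
the least absolute residue (`ZMod.valMinAbs`).

The proof is an exhaustive search (with symmetry reduction) whose every branch is checked by the kernel:
`Pool.Agent.R989.ZP.no_cfg`.
-/

namespace Pool.Agent.Results.MP_147277_co.NoGoodPermutation27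

/-- `π` is good: every triple `(a, b, c)`, not all equal, with `|[a + c - 2 b]_n| ≤ 1` satisfies
`|[π a + π c - 2 π b]_n| ≥ 2`. -/
def Good (n : ℕ) (π : Equiv.Perm (ZMod n)) : Prop :=
  ∀ a b c : ZMod n, ¬ (a = b ∧ b = c) → (a + c - 2 * b).valMinAbs.natAbs ≤ 1 →
    2 ≤ (π a + π c - 2 * π b).valMinAbs.natAbs

theorem near_iff : ∀ z : ZMod 27, Pool.Agent.R989.ZP.near z → z.valMinAbs.natAbs ≤ 1 := by
  decide

theorem result : ¬ ∃ π : Equiv.Perm (ZMod 27), Good 27 π := by
  rintro ⟨π, hπ⟩
  refine Pool.Agent.R989.ZP.no_cfg (S := fun x v => π x = v) ⟨?_, ?_, ?_, ?_, ?_⟩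
  · intro x; exact ⟨π x, rfl⟩
  · intro v; exact ⟨π.symm v, π.apply_symm_apply v⟩
  · intro x v v' h h'; exact h.symm.trans h'
  · intro x x' v h h'; exact π.injective (h.trans h'.symm)
  · intro x1 v1 x2 v2 x3 v3 h1 h2 h3 hx hv
    by_contra hne
    have h := hπ x1 x2 x3 hne (near_iff _ hx)
    rw [show π x1 = v1 from h1, show π x2 = v2 from h2, show π x3 = v3 from h3] at h
    have h' := near_iff _ hv
    omega

end Pool.Agent.Results.MP_147277_co.NoGoodPermutation27
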